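import Pool.Agent.Q120.LW.Stm
import Pool.Agent.Q224.ME.ENM

/-!
# Project LW of helper120 (MP_3509fd_nt), jobs MON, MIX, CEN (helper151)
-/

set_option autoImplicit false

namespace Pool.Agent.Q151.LW

open Finset MeasureTheory Pool.Agent.Q120.ME Pool.Agent.Q120.ET Pool.Agent.Q120.LW
open Pool.Agent.Q224.ME (gq gq_eq gq_cont gq_convex gq_mul integ_comp bern_insert bern_insert'
  sum_powerset_insert' sum_bern bern_pos)

theorem gq_ge {x y : ℝ} (hx : 0 ≤ x) (hy : 0 < y) : x - y ≤ gq y x := by
  unfold gq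
  rcases hx.eq_or_lt with h | h
  · rw [← h]
    simp
    exact hy.le
  · have h1 := Real.log_le_sub_one_of_pos (div_pos hy h)
    have h2 : Real.log (y / x) = -Real.log (x / y) := by
      rw [← Real.log_inv, inv_div]
    rw [h2] at h1
    have h3 : x * -Real.log (x / y) ≤ x * (y / x - 1) := mul_le_mul_of_nonneg_left h1 hx
    have h4 : x * (y / x - 1) = y - x := by
      field_simp
    linarith

/-- The log sum inequality for two terms. -/
theorem log_sum {a₁ a₂ b₁ b₂ : ℝ} (ha₁ : 0 ≤ a₁) (ha₂ : 0 ≤ a₂) (hb₁ : 0 < b₁) (hb₂ : 0 < b₂) :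
    gq (b₁ + b₂) (a₁ + a₂) ≤ gq b₁ a₁ + gq b₂ a₂ := by
  have hb : 0 < b₁ + b₂ := add_pos hb₁ hb₂
  rcases (add_nonneg ha₁ ha₂).eq_or_lt with h | h
  · have h1 : a₁ = 0 := by linarith
    have h2 : a₂ = 0 := by linarith
    rw [h1, h2]
    unfold gq
    simp
  · obtain ⟨s, hs⟩ : ∃ s : ℝ, s = (a₁ + a₂) / (b₁ + b₂) := ⟨_, rfl⟩
    have hs0 : 0 < s := by
      rw [hs]
      exact div_pos h hb
    have key : ∀ a b : ℝ, 0 ≤ a → 0 < b → gq (b * s) a = gq b a - a * Real.log s := by
      intro a b _ hb
      rw [gq_eq (mul_pos hb hs0), gq_eq hb, Real.log_mul hb.ne' hs0.ne']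
      ring
    have h1 := gq_ge ha₁ (mul_pos hb₁ hs0)
    have h2 := gq_ge ha₂ (mul_pos hb₂ hs0)
    rw [key a₁ b₁ ha₁ hb₁] at h1
    rw [key a₂ b₂ ha₂ hb₂] at h2
    have h3 : gq (b₁ + b₂) (a₁ + a₂) = (a₁ + a₂) * Real.log s := by
      unfold gq
      rw [hs]
    have h4 : s * (b₁ + b₂) = a₁ + a₂ := by
      rw [hs]
      field_simp
    rw [h3]
    linarith

theorem relEnt_eq (p : ℕ → ℝ) {Ω : Type*} [MeasurableSpace Ω] (μ : Measure Ω) (A : Ω → Set ℕ)
    (F : Finset ℕ) : relEnt p μ A F = ∑ T ∈ F.powerset, gq (bern p F T) (lawOn μ A F T) := rfl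

theorem law_insert {Ω : Type*} [MeasurableSpace Ω] (μ : Measure Ω) [IsProbabilityMeasure μ]
    {A : Ω → Set ℕ} (hA : IsRandomSet A) {F T : Finset ℕ} {m : ℕ} (hm : m ∉ F) (hT : T ⊆ F) :
    lawOn μ A (insert m F) T + lawOn μ A (insert m F) (insert m T) = lawOn μ A F T := by
  unfold lawOn
  have hmT : m ∉ T := fun h => hm (hT h)
  rw [← measureReal_union]
  · congr 1
    ext ω
    simp only [Set.mem_union, Set.mem_ofPred_eq]
    constructor
    · rintro (h | h)
      · intro n hn
        exact h n (mem_insert_of_mem hn)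
      · intro n hn
        have h1 := h n (mem_insert_of_mem hn)
        have h2 : n ≠ m := fun h => hm (h ▸ hn)
        rw [h1, mem_insert]
        constructor
        · rintro (h3 | h3)
          · exact absurd h3 h2
          · exact h3
        · exact fun h3 => Or.inr h3
    · intro h
      by_cases hmA : m ∈ A ω
      · right
        intro n hn
        rcases mem_insert.1 hn with h1 | h1
        · rw [h1]
          exact ⟨fun _ => mem_insert_self _ _, fun _ => hmA⟩
        · have h2 : n ≠ m := fun h => hm (h ▸ h1)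
          rw [h n h1, mem_insert]
          constructor
          · exact fun h3 => Or.inr h3
          · rintro (h3 | h3)
            · exact absurd h3 h2
            · exact h3
      · left
        intro n hn
        rcases mem_insert.1 hn with h1 | h1
        · rw [h1]
          exact ⟨fun h2 => absurd h2 hmA, fun h2 => absurd h2 hmT⟩
        · exact h n h1
  · rw [Set.disjoint_left]
    intro ω h1 h2
    have h3 := h1 m (mem_insert_self _ _)
    have h4 := h2 m (mem_insert_self _ _)
    exact hmT (h3.1 (h4.2 (mem_insert_self _ _)))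
  · exact measurableSet_law hA _ _

theorem mon_step (p : ℕ → ℝ) {Ω : Type*} [MeasurableSpace Ω] (μ : Measure Ω)
    [IsProbabilityMeasure μ] {A : Ω → Set ℕ} (hA : IsRandomSet A) {F : Finset ℕ} {m : ℕ} (hm : m ∉ F)
    (hp : ∀ n ∈ insert m F, 0 < p n ∧ p n < 1) : relEnt p μ A F ≤ relEnt p μ A (insert m F) := by
  rw [relEnt_eq, relEnt_eq, sum_powerset_insert' hm]
  have hpF : ∀ n ∈ F, 0 < p n ∧ p n < 1 := fun n hn => hp n (mem_insert_of_mem hn)
  have hpm := hp m (mem_insert_self _ _)
  refine sum_le_sum fun T hT => ?_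
  rw [mem_powerset] at hT
  rw [bern_insert hm hT, bern_insert' hm, ← law_insert μ hA hm hT]
  have h1 : bern p F T = (1 - p m) * bern p F T + p m * bern p F T := by ring
  conv_lhs => rw [h1]
  have h2 := bern_pos hpF T
  exact log_sum measureReal_nonneg measureReal_nonneg (mul_pos (by linarith) h2) (mul_pos hpm.1 h2)

theorem t_MON : J_MON := by
  intro p F F' hFF' hp Ω _ μ _ A hA
  induction F' using Finset.induction_on with
  | empty =>
    rw [subset_empty.1 hFF']
  | insert m G hm ih =>
    by_cases hmF : m ∈ F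
    · -- remove `m` from `F`, generalise
      obtain ⟨F₀, hF₀, rfl⟩ : ∃ F₀ : Finset ℕ, m ∉ F₀ ∧ F = insert m F₀ :=
        ⟨F.erase m, notMem_erase m F, (insert_erase hmF).symm⟩
      have hsub : F₀ ⊆ G := by
        intro n hn
        rcases mem_insert.1 (hFF' (mem_insert_of_mem hn)) with h | h
        · exact absurd (h ▸ hn) hF₀
        · exact h
      clear ih
      -- induction on the elements of `G` outside `F₀`
      have key : ∀ G' : Finset ℕ, Disjoint G' (insert m F₀) → insert m F₀ ∪ G' ⊆ insert m G →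
          relEnt p μ A (insert m F₀) ≤ relEnt p μ A (insert m F₀ ∪ G') := by
        intro G'
        induction G' using Finset.induction_on with
        | empty =>
          intro _ _
          rw [union_empty]
        | insert j G'' hj ih =>
          intro hd hs
          have hd' : Disjoint G'' (insert m F₀) := disjoint_of_subset_left (subset_insert _ _) hd
          have hs' : insert m F₀ ∪ G'' ⊆ insert m G :=
            (union_subset_union_right (subset_insert _ _)).trans hs
          refine (ih hd' hs').trans ?_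
          have hjn : j ∉ insert m F₀ ∪ G'' := by
            rw [mem_union]
            rintro (h | h)
            · exact (disjoint_left.1 hd) (mem_insert_self _ _) h
            · exact hj h
          rw [union_insert]
          refine mon_step p μ hA hjn fun n hn => hp n (hs ?_)
          rw [union_insert]
          exact hn
      have h1 := key (insert m G \ insert m F₀) sdiff_disjoint (by
        rw [union_sdiff_of_subset (insert_subset_insert m hsub)])
      rwa [union_sdiff_of_subset (insert_subset_insert m hsub)] at h1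
    · have hFG : F ⊆ G := (subset_insert_iff_of_notMem hmF).1 hFF'
      exact (ih hFG fun n hn => hp n (mem_insert_of_mem hn)).trans (mon_step p μ hA hm hp)

theorem t_MIX : J_MIX := by
  intro X _ ν _ Ω' _ μ' _ A hA p F hp
  have hAr : IsRandomSet (fun z : X × Ω' => A z.1 z.2) := hA
  have hms : ∀ T : Finset ℕ, MeasurableSet {z : X × Ω' | ∀ n ∈ F, (n ∈ A z.1 z.2 ↔ n ∈ T)} :=
    fun T => measurableSet_law hAr F T
  have hmeas : ∀ T : Finset ℕ, Measurable fun x => lawOn μ' (A x) F T := by
    intro T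
    have h1 : Measurable fun x => μ' (Prod.mk x ⁻¹' {z : X × Ω' | ∀ n ∈ F, (n ∈ A z.1 z.2 ↔ n ∈ T)}) :=
      measurable_measure_prodMk_left (hms T)
    exact h1.ennreal_toReal
  have hlaw : ∀ T : Finset ℕ, lawOn (ν.prod μ') (fun z => A z.1 z.2) F T =
      ∫ x, lawOn μ' (A x) F T ∂ν := by
    intro T
    unfold lawOn Measure.real
    rw [Measure.prod_apply (hms T), integral_toReal]
    · rfl
    · exact (measurable_measure_prodMk_left (hms T)).aemeasurable
    · exact Filter.Eventually.of_forall fun x => measure_lt_top _ _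
  have h01 : ∀ (T : Finset ℕ) (x : X), lawOn μ' (A x) F T ∈ Set.Icc (0 : ℝ) 1 := fun T x =>
    ⟨measureReal_nonneg, measureReal_le_one⟩
  have hint : ∀ T ∈ F.powerset, Integrable (fun x => gq (bern p F T) (lawOn μ' (A x) F T)) ν :=
    fun T _ => integ_comp ν (gq_cont (bern_pos hp T)) (hmeas T) (h01 T)
  refine ⟨?_, ?_⟩
  · simp only [relEnt_eq]
    exact integrable_finsetSum _ hint
  · simp only [relEnt_eq]
    rw [integral_finsetSum _ hint]
    refine sum_le_sum fun T hT => ?_
    have h2 := ConvexOn.map_integral_le (μ := ν) (gq_convex (bern_pos hp T))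
      (gq_cont (bern_pos hp T)).continuousOn isClosed_Ici (f := fun x => lawOn μ' (A x) F T)
      (Filter.Eventually.of_forall fun x => (h01 T x).1)
      (integ_comp ν continuous_id (hmeas T) (h01 T)) (hint T hT)
    rw [← hlaw T] at h2
    exact h2

/-! ### Independent cells -/

theorem sum_powerset_union {F G : Finset ℕ} (hd : Disjoint F G) (h : Finset ℕ → ℝ) :
    ∑ T ∈ (F ∪ G).powerset, h T = ∑ T₁ ∈ F.powerset, ∑ T₂ ∈ G.powerset, h (T₁ ∪ T₂) := by
  induction G using Finset.induction_on generalizing h with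
  | empty => simp
  | insert m G hm ih =>
    have hd' : Disjoint F G := disjoint_of_subset_right (subset_insert _ _) hd
    have hmF : m ∉ F := fun h => (disjoint_right.1 hd) (mem_insert_self _ _) h
    have hmFG : m ∉ F ∪ G := by
      rw [mem_union]
      rintro (h | h)
      · exact hmF h
      · exact hm h
    rw [union_insert, sum_powerset_insert' hmFG, ih hd' (fun T => h T + h (insert m T))]
    refine sum_congr rfl fun T₁ _ => ?_
    rw [sum_powerset_insert' hm]
    refine sum_congr rfl fun T₂ _ => ?_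
    rw [union_insert]

theorem bern_union (p : ℕ → ℝ) {F G T₁ T₂ : Finset ℕ} (hd : Disjoint F G) (h₁ : T₁ ⊆ F)
    (h₂ : T₂ ⊆ G) : bern p (F ∪ G) (T₁ ∪ T₂) = bern p F T₁ * bern p G T₂ := by
  unfold bern
  rw [prod_union hd]
  congr 1
  · refine prod_congr rfl fun n hn => ?_
    have h3 : n ∉ T₂ := fun h => (disjoint_left.1 hd) hn (h₂ h)
    simp [mem_union, h3]
  · refine prod_congr rfl fun n hn => ?_
    have h3 : n ∉ T₁ := fun h => (disjoint_right.1 hd) hn (h₁ h)
    simp [mem_union, h3]

theorem t_CEN : J_CEN := by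
  intro e he he0 K hK Ω _ μ _ A hM p hp N
  -- the sum of the products of the laws of the cells is one
  have hsum : ∀ N, ∑ T ∈ (Ico 3 (e N)).powerset, ∏ c ∈ range N, K c (T ∩ cell e c) = 1 := by
    intro N
    rw [← sum_law (μ := μ) hM.rand (Ico 3 (e N))]
    refine sum_congr rfl fun T hT => ?_
    rw [hM.law N T (mem_powerset.1 hT)]
  have hre : ∀ N, relEnt p μ A (Ico 3 (e N)) = ∑ T ∈ (Ico 3 (e N)).powerset,
      gq (bern p (Ico 3 (e N)) T) (∏ c ∈ range N, K c (T ∩ cell e c)) := by
    intro N
    rw [relEnt_eq]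
    refine sum_congr rfl fun T hT => ?_
    rw [hM.law N T (mem_powerset.1 hT)]
  have he3 : ∀ c, 3 ≤ e c := by
    intro c
    rw [← he0]
    exact he.monotone (Nat.zero_le c)
  rw [hre]
  induction N with
  | zero =>
    rw [he0, Ico_self]
    simp [gq, bern]
  | succ N ih =>
    have hle : e N ≤ e (N + 1) := he.monotone (Nat.le_succ N)
    have hU : Ico 3 (e (N + 1)) = Ico 3 (e N) ∪ cell e N := by
      unfold cell
      rw [Ico_union_Ico_eq_Ico (he3 N) hle]
    have hd : Disjoint (Ico 3 (e N)) (cell e N) := by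
      unfold cell
      exact Ico_disjoint_Ico_consecutive 3 (e N) (e (N + 1))
    rw [hU, sum_powerset_union hd, sum_range_succ, ← ih]
    have hterm : ∀ T₁ ∈ (Ico 3 (e N)).powerset, ∀ T₂ ∈ (cell e N).powerset,
        gq (bern p (Ico 3 (e N) ∪ cell e N) (T₁ ∪ T₂))
          (∏ c ∈ range (N + 1), K c ((T₁ ∪ T₂) ∩ cell e c)) =
        K N T₂ * gq (bern p (Ico 3 (e N)) T₁) (∏ c ∈ range N, K c (T₁ ∩ cell e c)) +
          (∏ c ∈ range N, K c (T₁ ∩ cell e c)) * gq (bern p (cell e N) T₂) (K N T₂) := by
      intro T₁ hT₁ T₂ hT₂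
      rw [mem_powerset] at hT₁ hT₂
      have h1 : ∀ c ∈ range N, K c ((T₁ ∪ T₂) ∩ cell e c) = K c (T₁ ∩ cell e c) := by
        intro c hc
        rw [mem_range] at hc
        congr 1
        ext n
        simp only [mem_inter, mem_union]
        constructor
        · rintro ⟨h | h, h'⟩
          · exact ⟨h, h'⟩
          · exfalso
            have h2 := mem_Ico.1 (hT₂ h)
            have h3 := mem_Ico.1 h'
            have h4 : e (c + 1) ≤ e N := he.monotone hc
            omega
        · rintro ⟨h, h'⟩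
          exact ⟨Or.inl h, h'⟩
      have h2 : (T₁ ∪ T₂) ∩ cell e N = T₂ := by
        ext n
        simp only [mem_inter, mem_union]
        constructor
        · rintro ⟨h | h, h'⟩
          · exact absurd h' ((disjoint_left.1 hd) (hT₁ h))
          · exact h
        · intro h
          exact ⟨Or.inr h, hT₂ h⟩
      rw [prod_range_succ, prod_congr rfl h1, h2, bern_union p hd hT₁ hT₂]
      refine gq_mul (bern_pos (fun n hn => hp n (mem_Ico.1 hn).1) T₁)
        (bern_pos (fun n hn => hp n ((he3 N).trans (mem_Ico.1 hn).1)) T₂)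
    rw [sum_congr rfl fun T₁ hT₁ => sum_congr rfl fun T₂ hT₂ => hterm T₁ hT₁ T₂ hT₂]
    have h5 : ∀ T₁ ∈ (Ico 3 (e N)).powerset, ∑ T₂ ∈ (cell e N).powerset,
        (K N T₂ * gq (bern p (Ico 3 (e N)) T₁) (∏ c ∈ range N, K c (T₁ ∩ cell e c)) +
          (∏ c ∈ range N, K c (T₁ ∩ cell e c)) * gq (bern p (cell e N) T₂) (K N T₂)) =
        gq (bern p (Ico 3 (e N)) T₁) (∏ c ∈ range N, K c (T₁ ∩ cell e c)) +
          (∏ c ∈ range N, K c (T₁ ∩ cell e c)) *
            ∑ T₂ ∈ (cell e N).powerset, gq (bern p (cell e N) T₂) (K N T₂) := by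
      intro T₁ _
      rw [sum_add_distrib, ← sum_mul, (hK N).2, one_mul, ← mul_sum]
    rw [sum_congr rfl h5, sum_add_distrib, ← sum_mul, hsum N, one_mul]
    rfl

end Pool.Agent.Q151.LW
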